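import Pool.Agent.H11.Fan.Cont

set_option autoImplicit false

/-!
# Smooth endpoint-homogeneous fans with equal EPG sets are far from unique

`Param`, `IsArc`, `SubCont`, `Dendroid`, `Ram`, `IsFan`, `Ends`, `Seg`, `Smooth`, `EndHom` and `EPG`
are the definitions of the library file `Pool.Graph.R_pool_sql_team_ae5b0c61.H84.FanDefs`.
-/

open Set Filter Topology unitInterval

namespace Pool.Agent.Results.MP_56c207_gt.ManyFans

open Pool.Agent.H84.Fan Pool.Agent.H11.Fan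

/-- `F` is a smooth endpoint-homogeneous fan with top `t`, and `F` is `X`-EPG. -/
def IsGoodFan {F : Type} [MetricSpace F] (t : F) (X : Set I) : Prop :=
  IsFan t ∧ Smooth t ∧ EndHom F ∧ EPG t X

/-- (1) The negated form of Q1: there are a nonempty `X` and two non-homeomorphic smooth
endpoint-homogeneous `X`-EPG fans.
(2) Let `X ⊆ [0,1]` be closed with `0 ∈ X` and with a largest element `M ≠ 0, 1` which is isolated
in `X`. Then there are smooth endpoint-homogeneous `X`-EPG fans `F x`, one for every nonzero point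
`x` of `X`, such that `F x` and `F M` are not homeomorphic for `x ≠ M`, and whenever `F x` and `F y`
are homeomorphic, some increasing self-homeomorphism `g` of `[0,1]` has `g(X) = X` and `g(x) = y`.
(3) Let `X ⊆ [0,1]` be closed with `0 ∈ X` and `1 ∉ X`, and let every nonempty subset of `X` have a
greatest element (for example `X` finite, or `X` accumulating only at `0`). Then there are smooth
endpoint-homogeneous `X`-EPG fans `F x`, one for every nonzero point `x` of `X`, no two of which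
are homeomorphic.
(4) There are a closed `X` and smooth endpoint-homogeneous `X`-EPG fans `F A`, one for every set `A`
of natural numbers, no two of which are homeomorphic: continuum many. -/
theorem result :
    (∃ X : Set I, X.Nonempty ∧ ∃ (F G : Type) (_ : MetricSpace F) (_ : MetricSpace G)
      (s : F) (t : G), IsGoodFan s X ∧ IsGoodFan t X ∧ IsEmpty (F ≃ₜ G)) ∧
    (∀ (X : Set I) (M : I), IsClosed X → 0 ∈ X → IsGreatest X M → M ≠ 0 → M ≠ 1 →
      (∃ N < M, ∀ r ∈ X, r ≤ N ∨ r = M) →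
      ∃ (F : {x : I // x ∈ X ∧ x ≠ 0} → Type) (_ : ∀ x, MetricSpace (F x)) (t : ∀ x, F x),
        (∀ x, IsGoodFan (t x) X) ∧
        (∀ x y, x.1 ≠ M → y.1 = M → IsEmpty (F x ≃ₜ F y)) ∧
        ∀ x y, Nonempty (F x ≃ₜ F y) → ∃ g : I ≃o I, g '' X = X ∧ g x.1 = y.1) ∧
    (∀ X : Set I, IsClosed X → 0 ∈ X → 1 ∉ X →
      (∀ S ⊆ X, S.Nonempty → ∃ m, IsGreatest S m) →
      ∃ (F : {x : I // x ∈ X ∧ x ≠ 0} → Type) (_ : ∀ x, MetricSpace (F x)) (t : ∀ x, F x),
        (∀ x, IsGoodFan (t x) X) ∧ ∀ x y, x ≠ y → IsEmpty (F x ≃ₜ F y)) ∧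
    (∃ X : Set I, IsClosed X ∧ ∃ (F : Set ℕ → Type) (_ : ∀ A, MetricSpace (F A)) (t : ∀ A, F A),
      (∀ A, IsGoodFan (t A) X) ∧ ∀ A B, A ≠ B → IsEmpty (F A ≃ₜ F B)) := by
  have p2 : ∀ (X : Set I) (M : I), IsClosed X → 0 ∈ X → IsGreatest X M → M ≠ 0 → M ≠ 1 →
      (∃ N < M, ∀ r ∈ X, r ≤ N ∨ r = M) →
      ∃ (F : {x : I // x ∈ X ∧ x ≠ 0} → Type) (_ : ∀ x, MetricSpace (F x)) (t : ∀ x, F x),
        (∀ x, IsGoodFan (t x) X) ∧
        (∀ x y, x.1 ≠ M → y.1 = M → IsEmpty (F x ≃ₜ F y)) ∧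
        ∀ x y, Nonempty (F x ≃ₜ F y) → ∃ g : I ≃o I, g '' X = X ∧ g x.1 = y.1 := by
    intro X M hX h0 hM hM0 hM1 hN
    obtain ⟨c, hc⟩ := general X M hX h0 hM hM0 hM1 hN
    refine ⟨fun x => FF (c x), fun x => inferInstance, fun x => top (c x),
      fun x => ⟨isFan, smooth, endHom, (hc x).epg⟩, fun x y hx hy => ⟨fun h => ?_⟩,
      fun x y ⟨h⟩ => general_iso hM hc x y h⟩
    obtain ⟨g, g1, g2⟩ := general_iso hM hc x y h
    apply hx
    refine (hM.2 x.2.1).antisymm (g.le_iff_le.1 ?_)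
    rw [g2, hy]
    exact hM.2 (g1 ▸ mem_image_of_mem _ hM.1)
  have p3 : ∀ X : Set I, IsClosed X → 0 ∈ X → 1 ∉ X →
      (∀ S ⊆ X, S.Nonempty → ∃ m, IsGreatest S m) →
      ∃ (F : {x : I // x ∈ X ∧ x ≠ 0} → Type) (_ : ∀ x, MetricSpace (F x)) (t : ∀ x, F x),
        (∀ x, IsGoodFan (t x) X) ∧ ∀ x y, x ≠ y → IsEmpty (F x ≃ₜ F y) := by
    intro X hX h0 h1 hg
    by_cases hz : ∃ z ∈ X, z ≠ 0
    · obtain ⟨z, hzX, hz0⟩ := hz
      obtain ⟨M, hM⟩ := hg X subset_rfl ⟨z, hzX⟩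
      have hM0 : 0 < M := (unitInterval.pos_iff_ne_zero.2 hz0).trans_le (hM.2 hzX)
      have hM1 : M ≠ 1 := fun h => h1 (h ▸ hM.1)
      obtain ⟨N, hN⟩ := hg (X \ {M}) sdiff_subset ⟨0, h0, hM0.ne⟩
      have hNM : N < M := (hM.2 hN.1.1).lt_of_ne hN.1.2
      obtain ⟨F, iF, t, q1, -, q3⟩ := p2 X M hX h0 hM hM0.ne' hM1 ⟨N, hNM, fun r hr => by
        by_cases e : r = M
        · exact Or.inr e
        · exact Or.inl (hN.2 ⟨hr, e⟩)⟩
      refine ⟨F, iF, t, q1, fun x y hxy => ⟨fun h => hxy ?_⟩⟩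
      obtain ⟨g, g1, g2⟩ := q3 x y ⟨h⟩
      exact Subtype.ext ((fixes hg g g1 x.2.1).symm.trans g2)
    · push Not at hz
      refine ⟨fun _ => PUnit, fun _ => inferInstance, fun _ => PUnit.unit,
        fun x => (x.2.2 (hz _ x.2.1)).elim, fun x => (x.2.2 (hz _ x.2.1)).elim⟩
  have p4 : ∃ X : Set I, IsClosed X ∧
      ∃ (F : Set ℕ → Type) (_ : ∀ A, MetricSpace (F A)) (t : ∀ A, F A),
      (∀ A, IsGoodFan (t A) X) ∧ ∀ A B, A ≠ B → IsEmpty (F A ≃ₜ F B) := by
    obtain ⟨c, h1, h2⟩ := continuum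
    exact ⟨XX, XX_closed, fun A => FF (c A), fun A => inferInstance, fun A => top (c A),
      fun A => ⟨isFan, smooth, endHom, h1 A⟩, fun A B hAB => ⟨fun h => hAB (h2 A B ⟨h⟩)⟩⟩
  refine ⟨?_, p2, p3, p4⟩
  have c1 : IsClosed ({0, ⟨1 / 3, by norm_num, by norm_num⟩, ⟨2 / 3, by norm_num, by norm_num⟩} : Set I) :=
    (toFinite _).isClosed
  obtain ⟨F, iF, t, q1, q2⟩ := p3 _ c1 (by simp)
    (by
      rintro (h | h | h)
      · exact one_ne_zero h
      · have := congrArg Subtype.val h; norm_num at this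
      · have := congrArg Subtype.val (mem_singleton_iff.1 h); norm_num at this)
    (((HG.single _).ins _).ins _)
  refine ⟨_, ⟨0, by simp⟩, F ⟨⟨1 / 3, by norm_num, by norm_num⟩, by simp, ?_⟩,
    F ⟨⟨2 / 3, by norm_num, by norm_num⟩, by simp, ?_⟩, iF _, iF _, t _, t _, q1 _, q1 _, q2 _ _ ?_⟩
  · intro h
    have := congrArg Subtype.val h
    norm_num at this
  · intro h
    have := congrArg Subtype.val h
    norm_num at this
  · intro h
    have := congrArg (fun z => (z.1 : ℝ)) h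
    norm_num at this

end Pool.Agent.Results.MP_56c207_gt.ManyFans
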